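import Pool.Agent.W854.IG.Stmts

/-!
# Project IG: basic lemmas
-/

open Finset MeasureTheory Filter Topology

noncomputable section

namespace Pool.Agent.W854.IG

section Pinned
variable {P ι : Type} [DecidableEq P]

lemma cf_congr {Λ : Finset P} {τ τ' : P → Bool} (h : ∀ p, p ∉ Λ → τ p = τ' p) :
    cf Λ τ = cf Λ τ' := by
  ext σ
  rw [mem_cf, mem_cf]
  constructor
  · intro hs p hp
    rw [hs p hp, h p hp]
  · intro hs p hp
    rw [hs p hp, h p hp]

lemma Zg_congr_bc {Λ : Finset P} {τ τ' : P → Bool} (h : ∀ p, p ∉ Λ → τ p = τ' p)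
    (E : Finset ι) (a b : ι → P) (J : ι → ℝ) (f : (P → Bool) → ℝ) :
    Zg Λ τ E a b J f = Zg Λ τ' E a b J f := by
  unfold Zg
  rw [cf_congr h]

lemma av_congr_bc {Λ : Finset P} {τ τ' : P → Bool} (h : ∀ p, p ∉ Λ → τ p = τ' p)
    (E : Finset ι) (a b : ι → P) (J : ι → ℝ) (f : (P → Bool) → ℝ) :
    av Λ τ E a b J f = av Λ τ' E a b J f := by
  unfold av
  rw [Zg_congr_bc h, Zg_congr_bc h]

lemma cf_insert {Λ : Finset P} {p : P} (hp : p ∉ Λ) (τ : P → Bool) :
    cf (insert p Λ) τ =
      (cf Λ (Function.update τ p true)).disjUnion (cf Λ (Function.update τ p false)) (by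
        rw [Finset.disjoint_left]
        intro σ h1 h2
        rw [mem_cf] at h1 h2
        have e1 := h1 p hp
        have e2 := h2 p hp
        simp at e1 e2
        rw [e1] at e2
        exact absurd e2 (by decide)) := by
  ext σ
  rw [Finset.mem_disjUnion, mem_cf, mem_cf, mem_cf]
  constructor
  · intro h
    have key : ∀ s : Bool, σ p = s → ∀ q, q ∉ Λ → σ q = Function.update τ p s q := by
      intro s hs q hq
      by_cases hqp : q = p
      · subst hqp; simp [hs]
      · rw [Function.update_of_ne hqp]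
        exact h q (by simp [hqp, hq])
    rcases Bool.eq_false_or_eq_true (σ p) with hs | hs
    · exact Or.inl (key true hs)
    · exact Or.inr (key false hs)
  · intro h q hq
    rw [Finset.mem_insert, not_or] at hq
    rcases h with h | h
    · rw [h q hq.2, Function.update_of_ne hq.1]
    · rw [h q hq.2, Function.update_of_ne hq.1]

lemma sum_cf_insert {M : Type*} [AddCommMonoid M] {Λ : Finset P} {p : P} (hp : p ∉ Λ)
    (τ : P → Bool) (F : (P → Bool) → M) :
    ∑ σ ∈ cf (insert p Λ) τ, F σ =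
      ∑ σ ∈ cf Λ (Function.update τ p true), F σ +
        ∑ σ ∈ cf Λ (Function.update τ p false), F σ := by
  rw [cf_insert hp, Finset.sum_disjUnion]

lemma Zg_insert {Λ : Finset P} {p : P} (hp : p ∉ Λ) (τ : P → Bool)
    (E : Finset ι) (a b : ι → P) (J : ι → ℝ) (f : (P → Bool) → ℝ) :
    Zg (insert p Λ) τ E a b J f =
      Zg Λ (Function.update τ p true) E a b J f + Zg Λ (Function.update τ p false) E a b J f :=
  sum_cf_insert hp τ _

/-- edges with both ends outside `Λ` do not matter -/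
lemma av_edges {Λ : Finset P} (τ : P → Bool) {E E' : Finset ι} (a b : ι → P) (J : ι → ℝ)
    (f : (P → Bool) → ℝ) (hE : E ⊆ E') (h : ∀ e ∈ E', e ∉ E → a e ∉ Λ ∧ b e ∉ Λ) :
    av Λ τ E' a b J f = av Λ τ E a b J f := by
  classical
  set C : ℝ := ∑ e ∈ E' \ E, J e * (sp (τ (a e)) * sp (τ (b e))) with hC
  have key : ∀ σ ∈ cf Λ τ, Hg E' a b J σ = C + Hg E a b J σ := by
    intro σ hσ
    rw [mem_cf] at hσ
    unfold Hg
    rw [← Finset.sum_sdiff hE, hC]
    congr 1
    apply Finset.sum_congr rfl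
    intro e he
    rw [Finset.mem_sdiff] at he
    obtain ⟨h1, h2⟩ := h e he.1 he.2
    rw [hσ _ h1, hσ _ h2]
  have key2 : ∀ g : (P → Bool) → ℝ, Zg Λ τ E' a b J g = Real.exp C * Zg Λ τ E a b J g := by
    intro g
    unfold Zg
    rw [Finset.mul_sum]
    apply Finset.sum_congr rfl
    intro σ hσ
    rw [key σ hσ, Real.exp_add]
    ring
  unfold av
  rw [key2, key2, mul_div_mul_left _ _ (Real.exp_pos C).ne']

lemma Zg_congr_fun {Λ : Finset P} {τ : P → Bool} (E : Finset ι) (a b : ι → P) (J : ι → ℝ)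
    {f g : (P → Bool) → ℝ} (h : ∀ σ ∈ cf Λ τ, f σ = g σ) :
    Zg Λ τ E a b J f = Zg Λ τ E a b J g :=
  Finset.sum_congr rfl fun σ hσ => by rw [h σ hσ]

lemma Zg_zero (Λ : Finset P) (τ : P → Bool) (E : Finset ι) (a b : ι → P) (J : ι → ℝ) :
    Zg Λ τ E a b J (fun _ => 0) = 0 := by simp [Zg]

lemma av_const (Λ : Finset P) (τ : P → Bool) (E : Finset ι) (a b : ι → P) (J : ι → ℝ) (c : ℝ) :
    av Λ τ E a b J (fun _ => c) = c := by
  have h := Zg_const_mul Λ τ E a b J c (fun _ => 1)
  simp only [mul_one] at h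
  unfold av
  rw [h, mul_div_assoc, div_self (Zg_one_pos Λ τ E a b J).ne', mul_one]

lemma av_add (Λ : Finset P) (τ : P → Bool) (E : Finset ι) (a b : ι → P) (J : ι → ℝ)
    (f g : (P → Bool) → ℝ) :
    av Λ τ E a b J (fun σ => f σ + g σ) = av Λ τ E a b J f + av Λ τ E a b J g := by
  unfold av
  rw [Zg_add, add_div]

lemma av_const_mul (Λ : Finset P) (τ : P → Bool) (E : Finset ι) (a b : ι → P) (J : ι → ℝ)
    (c : ℝ) (f : (P → Bool) → ℝ) :
    av Λ τ E a b J (fun σ => c * f σ) = c * av Λ τ E a b J f := by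
  unfold av
  rw [Zg_const_mul, mul_div_assoc]

lemma av_mono (Λ : Finset P) (τ : P → Bool) (E : Finset ι) (a b : ι → P) (J : ι → ℝ)
    {f g : (P → Bool) → ℝ} (h : ∀ σ ∈ cf Λ τ, f σ ≤ g σ) :
    av Λ τ E a b J f ≤ av Λ τ E a b J g :=
  div_le_div_of_nonneg_right (Zg_mono Λ τ E a b J h) (Zg_one_pos Λ τ E a b J).le

end Pinned

lemma sp_comp_mono {P : Type} (x : P) : Monotone (fun σ : P → Bool => sp (σ x)) :=
  fun _ _ h => sp_mono (h x)

/-- the integral against the finite-volume measure -/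
lemma plusMeasure_integral (β : ℝ) (n : ℕ) (F : (Pt → Bool) → ℝ) :
    ∫ σ, F σ ∂(plusMeasure β n) = avL β (box n) (fun _ => true) (edges n) F := by
  unfold plusMeasure
  have hZ : 0 < ∑ σ' ∈ cf (box n) (fun _ => true),
      Real.exp (β * ∑ e ∈ edges n, sp (σ' e.1) * sp (σ' (nb e))) :=
    Finset.sum_pos (fun σ _ => Real.exp_pos _) (cf_nonempty _ _)
  rw [integral_finsetSum_measure]
  · simp only [integral_smul_measure, integral_dirac]
    unfold avL av Zg
    rw [Finset.sum_div]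
    apply Finset.sum_congr rfl
    intro σ hσ
    rw [ENNReal.toReal_ofReal (div_nonneg (Real.exp_pos _).le hZ.le), smul_eq_mul]
    unfold Hg
    simp only [← Finset.mul_sum, one_mul]
    ring
  · intro σ hσ
    apply Integrable.smul_measure _ ENNReal.ofReal_ne_top
    exact integrable_dirac (by simp)

lemma plusMeasure_prob (β : ℝ) (n : ℕ) : IsProbabilityMeasure (plusMeasure β n) := by
  constructor
  unfold plusMeasure
  have hZ : 0 < ∑ σ' ∈ cf (box n) (fun _ => true),
      Real.exp (β * ∑ e ∈ edges n, sp (σ' e.1) * sp (σ' (nb e))) :=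
    Finset.sum_pos (fun σ _ => Real.exp_pos _) (cf_nonempty _ _)
  rw [Measure.finsetSum_apply]
  simp only [Measure.smul_apply, measure_univ, smul_eq_mul, mul_one]
  rw [← ENNReal.ofReal_sum_of_nonneg (fun σ _ => div_nonneg (Real.exp_pos _).le hZ.le),
    ← Finset.sum_div, div_self hZ.ne', ENNReal.ofReal_one]

end Pool.Agent.W854.IG
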