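import Pool.Agent.W854.IG.Base

/-!
# Project IG: final assembly
-/

open Finset MeasureTheory Filter Topology

noncomputable section

namespace Pool.Agent.W854.IG

/-- restriction of a configuration to the line -/
def toLine (σ : Pt → Bool) : Om := fun i => σ (i, 0)

lemma continuous_toLine : Continuous toLine := by
  unfold toLine
  exact continuous_pi fun i => continuous_apply _

theorem fin (hKey : S_KEY) (hLink : S_LINK) (hBD : S_BD) (hA : S_SOFTA) (hB : S_SOFTB)
    {μ : Measure (Pt → Bool)} (hμ : IsPlusPhase βc μ) : IsGibbs (μ.map toLine) := by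
  have hβ : 0 ≤ βc := by
    unfold βc
    have : 0 ≤ Real.log (1 + √2) := Real.log_nonneg (by have := Real.sqrt_nonneg 2; linarith)
    linarith
  obtain ⟨hprob, hconv⟩ := hμ
  have hpos : ∀ n ξ, 0 < wt βc n ξ := fun n ξ => Zg_one_pos _ _ _ _ _ _
  obtain ⟨g, hg⟩ := hA (wt βc) hpos
    (fun i => ⟨Real.exp (8 * βc), Real.exp_pos _, fun n ξ s => hBD βc n i ξ s hβ⟩)
    (fun i ε hε => hKey i ε hε)
  refine hB (wt βc) g (μ.map toLine) ?_ hpos ?_ hg ?_
  · exact Measure.isProbabilityMeasure_map continuous_toLine.measurable.aemeasurable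
  · intro n ξ ξ' h
    unfold wt ZL
    apply Zg_congr_bc
    intro p _
    unfold bc
    by_cases hp : p ∈ line n
    · simp only [hp, if_true]
      apply h
      rw [mem_line] at hp
      rw [Finset.mem_Icc]
      exact hp.1
    · simp only [hp, if_false]
  · intro f
    have e1 : ∫ ξ, f ξ ∂(μ.map toLine) = ∫ σ, f (toLine σ) ∂μ := by
      rw [integral_map continuous_toLine.measurable.aemeasurable]
      exact f.continuous.aestronglyMeasurable
    rw [e1]
    have := hconv ⟨fun σ => f (toLine σ), f.continuous.comp continuous_toLine⟩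
    simp only [ContinuousMap.coe_mk] at this
    refine this.congr ?_
    intro n
    exact hLink βc n f

end Pool.Agent.W854.IG
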