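import Pool.Agent.W854.IG.Base

/-!
# Project IG: from uniformly convergent conditional probabilities to a Gibbs measure
-/

open Finset MeasureTheory Filter Topology ENNReal

noncomputable section

namespace Pool.Agent.W854.IG.SB

/-- the finite-volume conditional expectation -/
def Gn (w : Om → ℝ) (Λ : Finset ℤ) (f : Om → ℝ) (η : Om) : ℝ :=
  (∑ ξ ∈ cf Λ η, w ξ * f ξ) / ∑ ξ ∈ cf Λ η, w ξ

lemma mem_cf_symm {Λ : Finset ℤ} {ξ ξ' : Om} (h : ξ' ∈ cf Λ ξ) : cf Λ ξ = cf Λ ξ' :=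
  cf_congr fun p hp => by rw [mem_cf] at h; exact (h p hp).symm

lemma star (w : Om → ℝ) (hw : ∀ ξ, 0 < w ξ) {Λ Δ : Finset ℤ} (h : Λ ⊆ Δ) (η : Om)
    (f : Om → ℝ) :
    ∑ ξ ∈ cf Δ η, w ξ * Gn w Λ f ξ = ∑ ξ ∈ cf Δ η, w ξ * f ξ := by
  have h1 : ∑ ξ ∈ cf Δ η, w ξ * Gn w Λ f ξ =
      ∑ ξ ∈ cf Δ η, ∑ ξ' ∈ cf Λ ξ, w ξ * ((w ξ' * f ξ') / ∑ ρ ∈ cf Λ ξ, w ρ) := by
    apply Finset.sum_congr rfl
    intro ξ _
    unfold Gn
    rw [Finset.sum_div, Finset.mul_sum]
  rw [h1]
  rw [Finset.sum_comm' (s' := fun ξ' => cf Λ ξ') (t' := cf Δ η)]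
  · apply Finset.sum_congr rfl
    intro ξ' _
    have hN : (∑ ρ ∈ cf Λ ξ', w ρ) ≠ 0 :=
      (Finset.sum_pos (fun ρ _ => hw ρ) (cf_nonempty Λ ξ')).ne'
    have h2 : ∑ ξ ∈ cf Λ ξ', w ξ * ((w ξ' * f ξ') / ∑ ρ ∈ cf Λ ξ, w ρ) =
        ∑ ξ ∈ cf Λ ξ', w ξ * ((w ξ' * f ξ') / ∑ ρ ∈ cf Λ ξ', w ρ) := by
      apply Finset.sum_congr rfl
      intro ξ hξ
      rw [← mem_cf_symm hξ]
    rw [h2, ← Finset.sum_mul]
    field_simp
  · intro ξ ξ'
    rw [mem_cf, mem_cf, mem_cf, mem_cf]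
    constructor
    · rintro ⟨a1, a2⟩
      refine ⟨fun p hp => (a2 p hp).symm, fun p hp => ?_⟩
      rw [a2 p (fun hh => hp (h hh)), a1 p hp]
    · rintro ⟨a1, a2⟩
      refine ⟨fun p hp => ?_, fun p hp => (a1 p hp).symm⟩
      rw [a1 p (fun hh => hp (h hh)), a2 p hp]

/-- local functions are continuous -/
lemma continuous_local {n : ℕ} {w : Om → ℝ}
    (h : ∀ ξ ξ' : Om, (∀ i ∈ Finset.Icc (-(n : ℤ)) n, ξ i = ξ' i) → w ξ = w ξ') :
    Continuous w := by
  set I := Finset.Icc (-(n : ℤ)) n with hI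
  let r : Om → (I → Bool) := fun ξ i => ξ i.1
  have hr : Continuous r := continuous_pi fun i => continuous_apply _
  let F : (I → Bool) → ℝ := fun s => w (ext I (fun _ => true) s)
  have hF : Continuous F := continuous_of_discreteTopology
  have : w = F ∘ r := by
    funext ξ
    apply h
    intro i hi
    rw [ext_mem hi]
  rw [this]
  exact hF.comp hr

lemma continuous_ext (Λ : Finset ℤ) (ζ : Λ → Bool) : Continuous fun η : Om => ext Λ η ζ := by
  apply continuous_pi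
  intro i
  unfold ext
  by_cases h : i ∈ Λ
  · simp only [h, dif_pos]
    exact continuous_const
  · simp only [h, dif_neg, not_false_eq_true]
    exact continuous_apply i

section Main
variable {w : ℕ → Om → ℝ} {g : (Λ : Finset ℤ) → (Λ → Bool) → Om → ℝ}
  (hw : ∀ n ξ, 0 < w n ξ)
  (hloc : ∀ (n : ℕ) (ξ ξ' : Om), (∀ i ∈ Finset.Icc (-(n : ℤ)) n, ξ i = ξ' i) → w n ξ = w n ξ')
  (hg : ∀ (Λ : Finset ℤ) (ζ : Λ → Bool),
      (∀ ε : ℝ, 0 < ε → ∃ N : ℕ, ∀ n, N ≤ n → ∀ η,
        |w n (ext Λ η ζ) / (∑ ζ' : Λ → Bool, w n (ext Λ η ζ')) - g Λ ζ η| ≤ ε) ∧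
      ∃ c : ℝ, 0 < c ∧ ∀ η, c ≤ g Λ ζ η)

/-- the finite-volume conditional probability -/
def gn (w : ℕ → Om → ℝ) (n : ℕ) (Λ : Finset ℤ) (ζ : Λ → Bool) (η : Om) : ℝ :=
  w n (ext Λ η ζ) / (∑ ζ' : Λ → Bool, w n (ext Λ η ζ'))

/-- the limiting conditional expectation -/
def GG (g : (Λ : Finset ℤ) → (Λ → Bool) → Om → ℝ) (Λ : Finset ℤ) (f : Om → ℝ) (η : Om) : ℝ :=
  ∑ ζ : Λ → Bool, g Λ ζ η * f (ext Λ η ζ)

include hw hloc hg

omit hw hloc in
lemma g_unif (Λ : Finset ℤ) (ζ : Λ → Bool) :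
    TendstoUniformly (fun n η => gn w n Λ ζ η) (g Λ ζ) atTop := by
  rw [Metric.tendstoUniformly_iff]
  intro ε hε
  obtain ⟨N, hN⟩ := (hg Λ ζ).1 (ε / 2) (by linarith)
  filter_upwards [eventually_ge_atTop N] with n hn η
  rw [dist_comm, Real.dist_eq]
  have := hN n hn η
  unfold gn
  linarith

omit hg in
lemma gn_cont (n : ℕ) (Λ : Finset ℤ) (ζ : Λ → Bool) : Continuous (gn w n Λ ζ) := by
  have hc : Continuous (w n) := continuous_local (hloc n)
  unfold gn
  apply Continuous.div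
  · exact hc.comp (continuous_ext Λ ζ)
  · exact continuous_finsetSum _ fun ζ' _ => hc.comp (continuous_ext Λ ζ')
  · intro η
    exact (Finset.sum_pos (fun ζ' _ => hw n _) ⟨ζ, Finset.mem_univ _⟩).ne'

lemma g_cont (Λ : Finset ℤ) (ζ : Λ → Bool) : Continuous (g Λ ζ) :=
  (g_unif hg Λ ζ).continuous (Frequently.of_forall fun n => gn_cont hw hloc n Λ ζ)

omit hw hloc in
lemma g_tendsto (Λ : Finset ℤ) (ζ : Λ → Bool) (η : Om) :
    Tendsto (fun n => gn w n Λ ζ η) atTop (𝓝 (g Λ ζ η)) :=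
  (g_unif hg Λ ζ).tendsto_at η

omit hw hloc in
lemma g_pos (Λ : Finset ℤ) (ζ : Λ → Bool) (η : Om) : 0 < g Λ ζ η := by
  obtain ⟨c, hc, h⟩ := (hg Λ ζ).2
  exact lt_of_lt_of_le hc (h η)

omit hloc in
lemma g_sum (Λ : Finset ℤ) (η : Om) : ∑ ζ : Λ → Bool, g Λ ζ η = 1 := by
  have h1 : Tendsto (fun n => ∑ ζ : Λ → Bool, gn w n Λ ζ η) atTop
      (𝓝 (∑ ζ : Λ → Bool, g Λ ζ η)) :=
    tendsto_finsetSum _ fun ζ _ => g_tendsto hg Λ ζ η
  have h2 : ∀ n, ∑ ζ : Λ → Bool, gn w n Λ ζ η = 1 := by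
    intro n
    unfold gn
    rw [← Finset.sum_div, div_self]
    exact (Finset.sum_pos (fun ζ' _ => hw n _) ⟨fun _ => true, Finset.mem_univ _⟩).ne'
  simp only [h2] at h1
  exact (tendsto_nhds_unique h1 tendsto_const_nhds)

omit hw hloc in
lemma g_outside (Λ : Finset ℤ) (ζ : Λ → Bool) (η η' : Om) (h : ∀ i, i ∉ Λ → η i = η' i) :
    g Λ ζ η = g Λ ζ η' := by
  have he : ∀ ζ : Λ → Bool, ext Λ η ζ = ext Λ η' ζ := by
    intro ζ
    funext i
    unfold ext
    by_cases hi : i ∈ Λ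
    · simp [hi]
    · simp [hi, h i hi]
  have h1 := g_tendsto hg Λ ζ η
  have h2 := g_tendsto hg Λ ζ η'
  have : (fun n => gn w n Λ ζ η) = fun n => gn w n Λ ζ η' := by
    funext n
    unfold gn
    simp only [he]
  rw [this] at h1
  exact tendsto_nhds_unique h1 h2

omit hw hloc hg in
lemma Gn_eq (n : ℕ) (Λ : Finset ℤ) (f : Om → ℝ) (η : Om) :
    Gn (w n) Λ f η = ∑ ζ : Λ → Bool, gn w n Λ ζ η * f (ext Λ η ζ) := by
  unfold Gn gn
  rw [sum_cf, sum_cf, Finset.sum_div]
  apply Finset.sum_congr rfl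
  intro ζ _
  ring

omit hw hloc in
lemma Gn_tendsto (Λ : Finset ℤ) (f : Om → ℝ) (η : Om) :
    Tendsto (fun n => Gn (w n) Λ f η) atTop (𝓝 (GG g Λ f η)) := by
  simp only [Gn_eq]
  unfold GG
  exact tendsto_finsetSum _ fun ζ _ => (g_tendsto hg Λ ζ η).mul_const _

omit hloc in
lemma GG_consistent {Λ Δ : Finset ℤ} (h : Λ ⊆ Δ) (f : Om → ℝ) (η : Om) :
    GG g Δ (GG g Λ f) η = GG g Δ f η := by
  have h1 := Gn_tendsto hg Δ f η
  have h2 : Tendsto (fun n => ∑ ζ : Δ → Bool, gn w n Δ ζ η * Gn (w n) Λ f (ext Δ η ζ)) atTop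
      (𝓝 (GG g Δ (GG g Λ f) η)) := by
    unfold GG
    exact tendsto_finsetSum _ fun ζ _ =>
      (g_tendsto hg Δ ζ η).mul (Gn_tendsto hg Λ f (ext Δ η ζ))
  have h3 : ∀ n, ∑ ζ : Δ → Bool, gn w n Δ ζ η * Gn (w n) Λ f (ext Δ η ζ) =
      Gn (w n) Δ f η := by
    intro n
    rw [← Gn_eq (w := w) n Δ (Gn (w n) Λ f) η]
    unfold Gn
    congr 1
    exact star (w n) (hw n) h η f
  simp only [h3] at h2
  exact tendsto_nhds_unique h2 h1

/-- the kernel -/
def kern : Finset ℤ → ProbabilityTheory.Kernel Om Om := fun Λ =>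
  { toFun := fun η => ∑ ζ : Λ → Bool, ENNReal.ofReal (g Λ ζ η) • Measure.dirac (ext Λ η ζ)
    measurable' := by
      apply Measure.measurable_of_measurable_coe
      intro s hs
      simp only [Measure.finsetSum_apply, Measure.smul_apply, smul_eq_mul]
      apply Finset.measurable_sum
      intro ζ _
      apply Measurable.mul
      · exact ENNReal.measurable_ofReal.comp (g_cont hw hloc hg Λ ζ).measurable
      · simp only [Measure.dirac_apply' _ hs]
        exact (measurable_one.indicator hs).comp (continuous_ext Λ ζ).measurable }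

lemma kern_apply (Λ : Finset ℤ) (η : Om) :
    kern hw hloc hg Λ η =
      ∑ ζ : Λ → Bool, ENNReal.ofReal (g Λ ζ η) • Measure.dirac (ext Λ η ζ) := rfl

lemma kern_lintegral (Λ : Finset ℤ) (η : Om) (f : Om → ℝ) (hf : ∀ ξ, 0 ≤ f ξ) :
    ∫⁻ ξ, ENNReal.ofReal (f ξ) ∂(kern hw hloc hg Λ η) = ENNReal.ofReal (GG g Λ f η) := by
  rw [kern_apply, lintegral_finsetSum_measure]
  simp only [lintegral_smul_measure, lintegral_dirac]
  unfold GG
  rw [ENNReal.ofReal_sum_of_nonneg]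
  · apply Finset.sum_congr rfl
    intro ζ _
    rw [ENNReal.ofReal_mul (g_pos hg Λ ζ η).le, smul_eq_mul]
  · intro ζ _
    exact mul_nonneg (g_pos hg Λ ζ η).le (hf _)

lemma kern_integral (Λ : Finset ℤ) (η : Om) (f : Om → ℝ) :
    ∫ ξ, f ξ ∂(kern hw hloc hg Λ η) = GG g Λ f η := by
  rw [kern_apply, integral_finsetSum_measure]
  · simp only [integral_smul_measure, integral_dirac]
    unfold GG
    apply Finset.sum_congr rfl
    intro ζ _
    rw [ENNReal.toReal_ofReal (g_pos hg Λ ζ η).le, smul_eq_mul]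
  · intro ζ _
    apply Integrable.smul_measure _ ENNReal.ofReal_ne_top
    exact integrable_dirac (by simp)

lemma kern_prob (Λ : Finset ℤ) : ProbabilityTheory.IsMarkovKernel (kern hw hloc hg Λ) := by
  constructor
  intro η
  constructor
  rw [kern_apply]
  simp only [Measure.finsetSum_apply, Measure.smul_apply, measure_univ, smul_eq_mul, mul_one]
  rw [← ENNReal.ofReal_sum_of_nonneg (fun ζ _ => (g_pos hg Λ ζ η).le), g_sum hw hg,
    ENNReal.ofReal_one]

lemma GG_cont (Λ : Finset ℤ) {f : Om → ℝ} (hf : Continuous f) : Continuous (GG g Λ f) := by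
  unfold GG
  exact continuous_finsetSum _ fun ζ _ =>
    (g_cont hw hloc hg Λ ζ).mul (hf.comp (continuous_ext Λ ζ))

omit hw hloc in
lemma GG_nonneg (Λ : Finset ℤ) {f : Om → ℝ} (hf : ∀ ξ, 0 ≤ f ξ) (η : Om) : 0 ≤ GG g Λ f η :=
  Finset.sum_nonneg fun ζ _ => mul_nonneg (g_pos hg Λ ζ η).le (hf _)

lemma kern_spec : IsSpec (kern hw hloc hg) := by
  refine ⟨kern_prob hw hloc hg, ?_, ?_, ?_⟩
  · intro Λ η η' h
    rw [kern_apply, kern_apply]
    apply Finset.sum_congr rfl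
    intro ζ _
    have he : ext Λ η ζ = ext Λ η' ζ := by
      funext i
      unfold ext
      by_cases hi : i ∈ Λ
      · simp [hi]
      · simp [hi, h i hi]
    rw [he, g_outside hg Λ ζ η η' h]
  · intro Λ η
    have h1 : kern hw hloc hg Λ η Set.univ = 1 :=
      (kern_prob hw hloc hg Λ).isProbabilityMeasure η |>.measure_univ
    rw [← h1, kern_apply]
    simp only [Measure.finsetSum_apply, Measure.smul_apply, smul_eq_mul]
    apply Finset.sum_congr rfl
    intro ζ _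
    rw [Measure.dirac_apply_of_mem, Measure.dirac_apply_of_mem (Set.mem_univ _)]
    intro i hi
    exact ext_not_mem hi
  · intro Λ Δ h η
    have : ProbabilityTheory.IsMarkovKernel (kern hw hloc hg Λ) := kern_prob hw hloc hg Λ
    have : ProbabilityTheory.IsMarkovKernel (kern hw hloc hg Δ) := kern_prob hw hloc hg Δ
    apply ext_of_forall_lintegral_eq_of_IsFiniteMeasure
    intro f
    have hf : ∀ x, ((f x : NNReal) : ℝ≥0∞) = ENNReal.ofReal ((f x : NNReal) : ℝ) := fun x => by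
      rw [ENNReal.ofReal_coe_nnreal]
    have hnn : ∀ x, 0 ≤ ((f x : NNReal) : ℝ) := fun x => NNReal.coe_nonneg _
    rw [Measure.lintegral_bind (kern hw hloc hg Λ).measurable.aemeasurable]
    · simp only [hf]
      rw [kern_lintegral hw hloc hg Δ η _ hnn]
      simp only [kern_lintegral hw hloc hg Λ _ _ hnn]
      rw [kern_lintegral hw hloc hg Δ η _ (GG_nonneg hg Λ hnn), GG_consistent hw hg h]
    · exact (ENNReal.continuous_coe.comp f.continuous).measurable.aemeasurable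

lemma kern_dlr (ν : Measure Om) [IsProbabilityMeasure ν]
    (hconv : ∀ f : C(Om, ℝ), Tendsto (fun n : ℕ =>
      (∑ ξ ∈ cf (Finset.Icc (-(n : ℤ)) n) (fun _ => true), f ξ * w n ξ) /
        ∑ ξ ∈ cf (Finset.Icc (-(n : ℤ)) n) (fun _ => true), w n ξ) atTop (𝓝 (∫ ξ, f ξ ∂ν)))
    (Λ : Finset ℤ) : ν.bind (kern hw hloc hg Λ) = ν := by
  have : ProbabilityTheory.IsMarkovKernel (kern hw hloc hg Λ) := kern_prob hw hloc hg Λ
  -- the integral identity
  have main : ∀ f : C(Om, ℝ), ∫ ξ, GG g Λ f ξ ∂ν = ∫ ξ, f ξ ∂ν := by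
    intro f
    set I : ℕ → Finset ℤ := fun n => Finset.Icc (-(n : ℤ)) n with hI
    have hD : ∀ n, 0 < ∑ ξ ∈ cf (I n) (fun _ => true), w n ξ := fun n =>
      Finset.sum_pos (fun ξ _ => hw n ξ) (cf_nonempty _ _)
    obtain ⟨M, hM⟩ : ∃ M : ℝ, ∀ ξ, |f ξ| ≤ M := by
      obtain ⟨M, hM⟩ := (isCompact_univ (X := Om)).exists_bound_of_continuousOn
        f.continuous.continuousOn
      exact ⟨M, fun ξ => by simpa using hM ξ (Set.mem_univ _)⟩
    have hM0 : 0 ≤ M := (abs_nonneg _).trans (hM (fun _ => true))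
    -- uniform closeness of Gn and GG
    have hunif : ∀ ε : ℝ, 0 < ε → ∃ N : ℕ, ∀ n, N ≤ n → ∀ η,
        |Gn (w n) Λ f η - GG g Λ f η| ≤ ε := by
      intro ε hε
      set k : ℝ := (Fintype.card (Λ → Bool) : ℝ) * (M + 1) with hk
      have hk0 : 0 < k := by
        have : 0 < Fintype.card (Λ → Bool) := Fintype.card_pos
        have : (0 : ℝ) < Fintype.card (Λ → Bool) := by exact_mod_cast this
        positivity
      choose N hN using fun ζ : Λ → Bool => (hg Λ ζ).1 (ε / k) (by positivity)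
      refine ⟨Finset.univ.sup N, fun n hn η => ?_⟩
      rw [Gn_eq]
      unfold GG
      rw [← Finset.sum_sub_distrib]
      calc |∑ ζ : Λ → Bool, (gn w n Λ ζ η * f (ext Λ η ζ) - g Λ ζ η * f (ext Λ η ζ))|
          ≤ ∑ ζ : Λ → Bool, |gn w n Λ ζ η * f (ext Λ η ζ) - g Λ ζ η * f (ext Λ η ζ)| :=
            Finset.abs_sum_le_sum_abs _ _
        _ ≤ ∑ ζ : Λ → Bool, (ε / k) * (M + 1) := by
            apply Finset.sum_le_sum
            intro ζ _
            rw [← sub_mul, abs_mul]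
            apply mul_le_mul
            · exact hN ζ n ((Finset.le_sup (Finset.mem_univ ζ)).trans hn) η
            · exact (hM _).trans (by linarith)
            · exact abs_nonneg _
            · positivity
        _ = ε := by
            rw [Finset.sum_const, Finset.card_univ, nsmul_eq_mul, hk]
            have : (0 : ℝ) < Fintype.card (Λ → Bool) := by
              have : 0 < Fintype.card (Λ → Bool) := Fintype.card_pos
              exact_mod_cast this
            have : M + 1 ≠ 0 := by positivity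
            field_simp
    -- DLR in finite volume
    have hfin : ∃ N0 : ℕ, ∀ n, N0 ≤ n → Λ ⊆ I n := by
      refine ⟨Λ.sup Int.natAbs, fun n hn i hi => ?_⟩
      have h1 : i.natAbs ≤ n := (Finset.le_sup (f := Int.natAbs) hi).trans hn
      rw [hI, Finset.mem_Icc]
      constructor <;> omega
    obtain ⟨N0, hN0⟩ := hfin
    have t1 := hconv ⟨GG g Λ f, GG_cont hw hloc hg Λ f.continuous⟩
    have t2 := hconv f
    simp only [ContinuousMap.coe_mk] at t1
    have t3 : Tendsto (fun n : ℕ =>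
        (∑ ξ ∈ cf (I n) (fun _ => true), GG g Λ f ξ * w n ξ) /
          (∑ ξ ∈ cf (I n) (fun _ => true), w n ξ) -
        (∑ ξ ∈ cf (I n) (fun _ => true), f ξ * w n ξ) /
          ∑ ξ ∈ cf (I n) (fun _ => true), w n ξ) atTop (𝓝 0) := by
      rw [Metric.tendsto_atTop]
      intro ε hε
      obtain ⟨N, hN⟩ := hunif (ε / 2) (by linarith)
      refine ⟨max N N0, fun n hn => ?_⟩
      rw [Real.dist_eq, sub_zero]
      have hn1 : N ≤ n := (le_max_left _ _).trans hn
      have hn2 : N0 ≤ n := (le_max_right _ _).trans hn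
      have hst := star (w n) (hw n) (hN0 n hn2) (fun _ => true) f
      have hst' : ∑ ξ ∈ cf (I n) (fun _ => true), f ξ * w n ξ =
          ∑ ξ ∈ cf (I n) (fun _ => true), Gn (w n) Λ f ξ * w n ξ := by
        simp only [mul_comm (f _) (w n _), mul_comm (Gn (w n) Λ f _) (w n _)]
        exact hst.symm
      rw [hst', ← sub_div, ← Finset.sum_sub_distrib, abs_div, abs_of_pos (hD n),
        div_lt_iff₀ (hD n)]
      calc |∑ ξ ∈ cf (I n) (fun _ => true), (GG g Λ f ξ * w n ξ - Gn (w n) Λ f ξ * w n ξ)|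
          ≤ ∑ ξ ∈ cf (I n) (fun _ => true), |GG g Λ f ξ * w n ξ - Gn (w n) Λ f ξ * w n ξ| :=
            Finset.abs_sum_le_sum_abs _ _
        _ ≤ ∑ ξ ∈ cf (I n) (fun _ => true), (ε / 2) * w n ξ := by
            apply Finset.sum_le_sum
            intro ξ _
            rw [← sub_mul, abs_mul, abs_of_pos (hw n ξ)]
            apply mul_le_mul_of_nonneg_right _ (hw n ξ).le
            rw [abs_sub_comm]
            exact hN n hn1 ξ
        _ = (ε / 2) * ∑ ξ ∈ cf (I n) (fun _ => true), w n ξ := by rw [Finset.mul_sum]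
        _ < ε * ∑ ξ ∈ cf (I n) (fun _ => true), w n ξ :=
            mul_lt_mul_of_pos_right (by linarith) (hD n)
    have t4 := t1.sub t2
    have := tendsto_nhds_unique t4 t3
    linarith
  apply ext_of_forall_lintegral_eq_of_IsFiniteMeasure
  intro f
  have hf : ∀ x, ((f x : NNReal) : ℝ≥0∞) = ENNReal.ofReal ((f x : NNReal) : ℝ) := fun x => by
    rw [ENNReal.ofReal_coe_nnreal]
  have hnn : ∀ x, 0 ≤ ((f x : NNReal) : ℝ) := fun x => NNReal.coe_nonneg _
  have hfc : Continuous fun x => ((f x : NNReal) : ℝ) := NNReal.continuous_coe.comp f.continuous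
  rw [Measure.lintegral_bind (kern hw hloc hg Λ).measurable.aemeasurable]
  · simp only [hf]
    simp only [kern_lintegral hw hloc hg Λ _ _ hnn]
    have i1 : Integrable (GG g Λ fun x => ((f x : NNReal) : ℝ)) ν := by
      apply (GG_cont hw hloc hg Λ hfc).integrable_of_hasCompactSupport
      exact HasCompactSupport.of_compactSpace _
    have i2 : Integrable (fun x => ((f x : NNReal) : ℝ)) ν := by
      apply hfc.integrable_of_hasCompactSupport
      exact HasCompactSupport.of_compactSpace _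
    rw [← ofReal_integral_eq_lintegral_ofReal i1 (Eventually.of_forall (GG_nonneg hg Λ hnn)),
      ← ofReal_integral_eq_lintegral_ofReal i2 (Eventually.of_forall hnn)]
    congr 1
    exact main ⟨_, hfc⟩
  · exact (ENNReal.continuous_coe.comp f.continuous).measurable.aemeasurable

end Main

theorem softB : S_SOFTB := by
  intro w g ν hν hw hloc hg hconv
  refine ⟨kern hw hloc hg, kern_spec hw hloc hg, ?_, ?_, kern_dlr hw hloc hg ν hconv⟩
  · intro Λ
    choose c hc hcg using fun ζ : Λ → Bool => (hg Λ ζ).2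
    refine ⟨Finset.univ.inf' ⟨fun _ => true, Finset.mem_univ _⟩ c, ?_, ?_⟩
    · rw [Finset.lt_inf'_iff]
      exact fun ζ _ => hc ζ
    · intro η ζ
      set ζ0 : Λ → Bool := fun i => ζ i.1 with hζ0
      refine (Finset.inf'_le c (Finset.mem_univ ζ0)).trans ((hcg ζ0 η).trans ?_)
      have : ProbabilityTheory.IsMarkovKernel (kern hw hloc hg Λ) := kern_prob hw hloc hg Λ
      have h1 : ENNReal.ofReal (g Λ ζ0 η) ≤ kern hw hloc hg Λ η {ω | ∀ i ∈ Λ, ω i = ζ i} := by
        rw [kern_apply]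
        simp only [Measure.finsetSum_apply, Measure.smul_apply, smul_eq_mul]
        refine le_trans ?_ (Finset.single_le_sum (f := fun ζ' : Λ → Bool =>
          ENNReal.ofReal (g Λ ζ' η) * (Measure.dirac (ext Λ η ζ')) {ω | ∀ i ∈ Λ, ω i = ζ i})
          (fun _ _ => zero_le) (Finset.mem_univ ζ0))
        rw [Measure.dirac_apply_of_mem, mul_one]
        intro i hi
        rw [ext_mem hi]
      have h2 := ENNReal.toReal_mono (measure_ne_top _ _) h1
      rwa [ENNReal.toReal_ofReal (g_pos hg Λ ζ0 η).le] at h2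
  · intro Λ f
    simp only [kern_integral hw hloc hg Λ]
    exact GG_cont hw hloc hg Λ f.continuous

end Pool.Agent.W854.IG.SB
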