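import Pool.Agent.W854.IG.Key
import Pool.Agent.W854.IG.Fin
import Pool.Agent.W854.IG.SoftB
import Pool.Agent.W571.IG.Mono
import Pool.Agent.W571.IG.RL
import Pool.Agent.W337.IG.Fkg
import Pool.Agent.W337.IG.Sand
import Pool.Agent.W337.IG.Harm
import Pool.Agent.W337.IG.Vol
import Pool.Agent.W74.IG.DSS
import Pool.Agent.W74.IG.PIN
import Pool.Agent.W74.IG.EXIST
import Pool.Agent.W177.IG.Leaf
import Pool.Agent.W177.IG.Link
import Pool.Agent.W177.IG.SoftA
import Pool.Agent.W599.IG.Qrel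

/-!
# Project IG: the critical Ising projection onto a line is a Gibbs measure
-/

open Finset MeasureTheory Filter Topology

noncomputable section

namespace Pool.Agent.W854.IG

theorem rl : S_RL := Pool.Agent.W571.IG.rl (Pool.Agent.W571.IG.rln Pool.Agent.W571.IG.mono)

theorem dss : S_DSS := Pool.Agent.W74.IG.main rl Pool.Agent.W337.IG.fkg3

theorem pinned : S_PIN := Pool.Agent.W74.IG.PIN.main dss Pool.Agent.W337.IG.fkg2

theorem rectangles : S_RECT := rect_of Pool.Agent.W337.IG.harm Pool.Agent.W599.IGQ.main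

theorem keyEstimate : S_KEY :=
  key Pool.Agent.W337.IG.sand pinned (Pool.Agent.W177.IG.leaf Pool.Agent.W337.IG.sand)
    (Pool.Agent.W337.IG.vol Pool.Agent.W337.IG.sand) rectangles

theorem plusPhase_exists {β : ℝ} (hβ : 0 ≤ β) : ∃ μ : Measure (Pt → Bool), IsPlusPhase β μ :=
  Pool.Agent.W74.IG.EXIST.main Pool.Agent.W337.IG.sand β hβ

theorem plusPhase_unique {β : ℝ} {μ μ' : Measure (Pt → Bool)} (h : IsPlusPhase β μ)
    (h' : IsPlusPhase β μ') : μ' = μ := by
  obtain ⟨hp, hc⟩ := h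
  obtain ⟨hp', hc'⟩ := h'
  apply ext_of_forall_integral_eq_of_IsFiniteMeasure
  intro f
  exact tendsto_nhds_unique (hc' f.toContinuousMap) (hc f.toContinuousMap)

theorem gibbs {μ : Measure (Pt → Bool)} (hμ : IsPlusPhase βc μ) : IsGibbs (μ.map toLine) :=
  fin keyEstimate Pool.Agent.W177.IG.link Pool.Agent.W177.IG.bd Pool.Agent.W177.IG.softA
    SB.softB hμ

end Pool.Agent.W854.IG
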