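import Mathlib

/-!
# Project IG (MP_6ac95e_pr): the critical Ising projection onto a line is a Gibbs measure

Definitions.  Owner: helper854.
-/

open Finset MeasureTheory Filter Topology

noncomputable section

namespace Pool.Agent.W854.IG

/-- spin value of a Boolean: `true` is `+1`, `false` is `-1` -/
def sp (b : Bool) : ℝ := if b then 1 else -1

@[simp] lemma sp_true : sp true = 1 := by simp [sp]
@[simp] lemma sp_false : sp false = -1 := by simp [sp]
lemma sp_not (b : Bool) : sp (!b) = - sp b := by cases b <;> simp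
@[simp] lemma sp_mul_self (b : Bool) : sp b * sp b = 1 := by cases b <;> simp
lemma sp_sq (b : Bool) : sp b ^ 2 = 1 := by cases b <;> simp
lemma abs_sp (b : Bool) : |sp b| = 1 := by cases b <;> simp
lemma sp_le_one (b : Bool) : sp b ≤ 1 := by cases b <;> norm_num
lemma neg_one_le_sp (b : Bool) : -1 ≤ sp b := by cases b <;> norm_num
lemma sp_mono {b c : Bool} (h : b ≤ c) : sp b ≤ sp c := by
  cases b <;> cases c
  · exact le_rfl
  · norm_num
  · exact absurd h (by decide)
  · exact le_rfl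

/-! ### general finite Ising models with real fields -/
section General
variable {V ι : Type} [Fintype V] [DecidableEq V] [Fintype ι]

/-- energy (to be exponentiated) of a finite Ising model: coupling `J e` on the edge
`a e - b e` (loops allowed), field `h v` at `v` -/
def en (a b : ι → V) (J : ι → ℝ) (h : V → ℝ) (σ : V → Bool) : ℝ :=
  (∑ e, J e * (sp (σ (a e)) * sp (σ (b e)))) + ∑ v, h v * sp (σ v)

/-- `∑ f(σ) exp(energy σ)` -/
def Zf (a b : ι → V) (J : ι → ℝ) (h : V → ℝ) (f : (V → Bool) → ℝ) : ℝ :=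
  ∑ σ : V → Bool, f σ * Real.exp (en a b J h σ)

/-- indicator of `σ x = s, σ y = t` -/
def ind2 (x y : V) (s t : Bool) (σ : V → Bool) : ℝ := if σ x = s ∧ σ y = t then 1 else 0

/-- indicator of `σ x = s, σ y = t, σ z = r` -/
def ind3 (x y z : V) (s t r : Bool) (σ : V → Bool) : ℝ :=
  if σ x = s ∧ σ y = t ∧ σ z = r then 1 else 0

end General

/-! ### Ising models on a possibly infinite vertex set with pinned spins -/
section Pinned
variable {P ι : Type} [DecidableEq P]

/-- the configuration equal to `σ` on `Λ` and to `τ` outside `Λ` -/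
def ext (Λ : Finset P) (τ : P → Bool) (σ : Λ → Bool) : P → Bool :=
  fun p => if h : p ∈ Λ then σ ⟨p, h⟩ else τ p

lemma ext_mem {Λ : Finset P} {τ : P → Bool} {σ : Λ → Bool} {p : P} (h : p ∈ Λ) :
    ext Λ τ σ p = σ ⟨p, h⟩ := by simp [ext, h]

lemma ext_not_mem {Λ : Finset P} {τ : P → Bool} {σ : Λ → Bool} {p : P} (h : p ∉ Λ) :
    ext Λ τ σ p = τ p := by simp [ext, h]

lemma ext_injective (Λ : Finset P) (τ : P → Bool) : Function.Injective (ext Λ τ) := by
  intro σ σ' h
  funext p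
  have := congrFun h p.1
  rwa [ext_mem p.2, ext_mem p.2] at this

/-- the (finite) set of all configurations equal to `τ` outside `Λ` -/
def cf (Λ : Finset P) (τ : P → Bool) : Finset (P → Bool) :=
  Finset.univ.map ⟨ext Λ τ, ext_injective Λ τ⟩

lemma mem_cf {Λ : Finset P} {τ σ : P → Bool} : σ ∈ cf Λ τ ↔ ∀ p, p ∉ Λ → σ p = τ p := by
  constructor
  · intro h p hp
    simp only [cf, Finset.mem_map, Finset.mem_univ, true_and, Function.Embedding.coeFn_mk] at h
    obtain ⟨s, rfl⟩ := h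
    exact ext_not_mem hp
  · intro h
    simp only [cf, Finset.mem_map, Finset.mem_univ, true_and, Function.Embedding.coeFn_mk]
    refine ⟨fun p => σ p.1, ?_⟩
    funext p
    by_cases hp : p ∈ Λ
    · rw [ext_mem hp]
    · rw [ext_not_mem hp, h p hp]

lemma ext_mem_cf (Λ : Finset P) (τ : P → Bool) (σ : Λ → Bool) : ext Λ τ σ ∈ cf Λ τ :=
  mem_cf.2 fun _ hp => ext_not_mem hp

lemma self_mem_cf (Λ : Finset P) (τ : P → Bool) : τ ∈ cf Λ τ := mem_cf.2 fun _ _ => rfl

lemma cf_nonempty (Λ : Finset P) (τ : P → Bool) : (cf Λ τ).Nonempty := ⟨τ, self_mem_cf Λ τ⟩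

lemma sum_cf {M : Type*} [AddCommMonoid M] (Λ : Finset P) (τ : P → Bool) (F : (P → Bool) → M) :
    ∑ σ ∈ cf Λ τ, F σ = ∑ σ : Λ → Bool, F (ext Λ τ σ) := by
  simp [cf, Finset.sum_map]

/-- energy (to be exponentiated): sum over the finite edge set `E` -/
def Hg (E : Finset ι) (a b : ι → P) (J : ι → ℝ) (σ : P → Bool) : ℝ :=
  ∑ e ∈ E, J e * (sp (σ (a e)) * sp (σ (b e)))

/-- `∑ f(σ) exp(energy σ)` over the configurations equal to `τ` outside `Λ` -/
def Zg (Λ : Finset P) (τ : P → Bool) (E : Finset ι) (a b : ι → P) (J : ι → ℝ)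
    (f : (P → Bool) → ℝ) : ℝ :=
  ∑ σ ∈ cf Λ τ, f σ * Real.exp (Hg E a b J σ)

/-- expectation of `f` in the Ising model on `Λ` with boundary condition `τ` -/
def av (Λ : Finset P) (τ : P → Bool) (E : Finset ι) (a b : ι → P) (J : ι → ℝ)
    (f : (P → Bool) → ℝ) : ℝ :=
  Zg Λ τ E a b J f / Zg Λ τ E a b J (fun _ => 1)

lemma Zg_pos (Λ : Finset P) (τ : P → Bool) (E : Finset ι) (a b : ι → P) (J : ι → ℝ)
    (f : (P → Bool) → ℝ) (hf : ∀ σ, 0 < f σ) : 0 < Zg Λ τ E a b J f :=
  Finset.sum_pos (fun σ _ => mul_pos (hf σ) (Real.exp_pos _)) (cf_nonempty Λ τ)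

lemma Zg_one_pos (Λ : Finset P) (τ : P → Bool) (E : Finset ι) (a b : ι → P) (J : ι → ℝ) :
    0 < Zg Λ τ E a b J (fun _ => 1) := Zg_pos Λ τ E a b J _ fun _ => one_pos

lemma Zg_add (Λ : Finset P) (τ : P → Bool) (E : Finset ι) (a b : ι → P) (J : ι → ℝ)
    (f g : (P → Bool) → ℝ) :
    Zg Λ τ E a b J (fun σ => f σ + g σ) = Zg Λ τ E a b J f + Zg Λ τ E a b J g := by
  simp [Zg, add_mul, Finset.sum_add_distrib]

lemma Zg_const_mul (Λ : Finset P) (τ : P → Bool) (E : Finset ι) (a b : ι → P) (J : ι → ℝ)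
    (c : ℝ) (f : (P → Bool) → ℝ) :
    Zg Λ τ E a b J (fun σ => c * f σ) = c * Zg Λ τ E a b J f := by
  simp [Zg, Finset.mul_sum, mul_assoc]

lemma Zg_mono (Λ : Finset P) (τ : P → Bool) (E : Finset ι) (a b : ι → P) (J : ι → ℝ)
    {f g : (P → Bool) → ℝ} (h : ∀ σ ∈ cf Λ τ, f σ ≤ g σ) :
    Zg Λ τ E a b J f ≤ Zg Λ τ E a b J g :=
  Finset.sum_le_sum fun σ hσ => mul_le_mul_of_nonneg_right (h σ hσ) (Real.exp_pos _).le

/-- the boundary condition equal to `τ` on `L` and to the constant `s` elsewhere -/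
def pin (L : Finset P) (τ : P → Bool) (s : Bool) : P → Bool := fun p => if p ∈ L then τ p else s

end Pinned

/-! ### the square lattice -/

abbrev Pt := ℤ × ℤ

/-- second end point of the edge `e`; the edge `(p, true)` joins `p` and `p + (1,0)`, the edge
`(p, false)` joins `p` and `p + (0,1)` -/
def nb (e : Pt × Bool) : Pt := if e.2 then (e.1.1 + 1, e.1.2) else (e.1.1, e.1.2 + 1)

@[simp] lemma nb_true (p : Pt) : nb (p, true) = (p.1 + 1, p.2) := by simp [nb]
@[simp] lemma nb_false (p : Pt) : nb (p, false) = (p.1, p.2 + 1) := by simp [nb]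

/-- the box `[-n, n]²` -/
def box (n : ℕ) : Finset Pt := Finset.Icc (-(n : ℤ)) n ×ˢ Finset.Icc (-(n : ℤ)) n

lemma mem_box {n : ℕ} {p : Pt} :
    p ∈ box n ↔ (-(n : ℤ) ≤ p.1 ∧ p.1 ≤ n) ∧ (-(n : ℤ) ≤ p.2 ∧ p.2 ≤ n) := by
  simp [box, Finset.mem_product, Finset.mem_Icc]

/-- all nearest neighbour edges with at least one end point in `box n` -/
def edges (n : ℕ) : Finset (Pt × Bool) :=
  (box (n + 1) ×ˢ (Finset.univ : Finset Bool)).filter (fun e => e.1 ∈ box n ∨ nb e ∈ box n)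

lemma mem_edges {n : ℕ} {e : Pt × Bool} : e ∈ edges n ↔ e.1 ∈ box n ∨ nb e ∈ box n := by
  obtain ⟨⟨x, y⟩, d⟩ := e
  simp only [edges, Finset.mem_filter, Finset.mem_product, Finset.mem_univ, and_true]
  constructor
  · exact fun h => h.2
  · intro h
    refine ⟨?_, h⟩
    rcases h with h | h
    · rw [mem_box] at h ⊢
      push_cast at h ⊢
      omega
    · rw [mem_box] at h ⊢
      cases d <;> simp only [nb_true, nb_false] at h <;> push_cast at h ⊢ <;> omega

/-- expectation in the finite-volume Ising model on `Λ ⊂ ℤ²` at inverse temperature `β`, boundary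
condition `τ`, edge set `E` -/
def avL (β : ℝ) (Λ : Finset Pt) (τ : Pt → Bool) (E : Finset (Pt × Bool))
    (f : (Pt → Bool) → ℝ) : ℝ :=
  av Λ τ E Prod.fst nb (fun _ => β) f

/-- partition sum -/
def ZL (β : ℝ) (Λ : Finset Pt) (τ : Pt → Bool) (E : Finset (Pt × Bool))
    (f : (Pt → Bool) → ℝ) : ℝ :=
  Zg Λ τ E Prod.fst nb (fun _ => β) f

/-- the finite-volume Gibbs measure in `box n` with plus boundary condition -/
def plusMeasure (β : ℝ) (n : ℕ) : Measure (Pt → Bool) :=
  ∑ σ ∈ cf (box n) (fun _ => true),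
    ENNReal.ofReal (Real.exp (β * ∑ e ∈ edges n, sp (σ e.1) * sp (σ (nb e))) /
      ∑ σ' ∈ cf (box n) (fun _ => true),
        Real.exp (β * ∑ e ∈ edges n, sp (σ' e.1) * sp (σ' (nb e)))) • Measure.dirac σ

/-- `μ` is the plus phase: the weak limit of the finite-volume Gibbs measures with plus boundary
condition -/
def IsPlusPhase (β : ℝ) (μ : Measure (Pt → Bool)) : Prop :=
  IsProbabilityMeasure μ ∧
    ∀ f : C(Pt → Bool, ℝ),
      Tendsto (fun n => ∫ σ, f σ ∂(plusMeasure β n)) atTop (𝓝 (∫ σ, f σ ∂μ))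

/-- critical inverse temperature -/
def βc : ℝ := Real.log (1 + √2) / 2

/-! ### the line -/

/-- configurations on the line -/
abbrev Om := ℤ → Bool

/-- the sites of the horizontal line inside `box n` -/
def line (n : ℕ) : Finset Pt := Finset.Icc (-(n : ℤ)) n ×ˢ ({0} : Finset ℤ)

lemma mem_line {n : ℕ} {p : Pt} : p ∈ line n ↔ (-(n : ℤ) ≤ p.1 ∧ p.1 ≤ n) ∧ p.2 = 0 := by
  unfold line
  rw [Finset.mem_product, Finset.mem_Icc, Finset.mem_singleton]

/-- boundary condition: `ξ` on the line inside `box n`, the constant `s` elsewhere -/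
def bc (s : Bool) (n : ℕ) (ξ : Om) : Pt → Bool := fun p => if p ∈ line n then ξ p.1 else s

/-- weight of the line configuration `ξ` in `box n` with plus boundary condition -/
def wt (β : ℝ) (n : ℕ) (ξ : Om) : ℝ :=
  ZL β (box n \ line n) (bc true n ξ) (edges n) (fun _ => 1)

/-- conditional probability of a plus at `(i,0)` given `ξ` on the rest of the line inside `box n` -/
def pr (β : ℝ) (n : ℕ) (i : ℤ) (ξ : Om) : ℝ :=
  wt β n (Function.update ξ i true) /
    (wt β n (Function.update ξ i true) + wt β n (Function.update ξ i false))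

/-- the edges of `box n` which do not touch the line -/
def halfEdges (n : ℕ) : Finset (Pt × Bool) :=
  (edges n).filter (fun e => e.1 ∉ line n ∧ nb e ∉ line n)

/-- magnetisation at `p` when the line is removed, plus boundary condition -/
def magHalf (β : ℝ) (n : ℕ) (p : Pt) : ℝ :=
  avL β (box n \ line n) (fun _ => true) (halfEdges n) (fun σ => sp (σ p))

/-- the rectangle `[1,W] × [1,K]` -/
def rect (W K : ℕ) : Finset Pt := Finset.Icc 1 (W : ℤ) ×ˢ Finset.Icc 1 (K : ℤ)

lemma mem_rect {W K : ℕ} {p : Pt} :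
    p ∈ rect W K ↔ (1 ≤ p.1 ∧ p.1 ≤ W) ∧ (1 ≤ p.2 ∧ p.2 ≤ K) := by
  simp [rect, Finset.mem_product, Finset.mem_Icc]

/-- all edges touching the rectangle except the vertical edges below the bottom row -/
def rectEdges (W K : ℕ) : Finset (Pt × Bool) :=
  ((Finset.Icc 0 (W : ℤ) ×ˢ Finset.Icc 1 (K : ℤ)) ×ˢ ({true} : Finset Bool)) ∪
    ((Finset.Icc 1 (W : ℤ) ×ˢ Finset.Icc 1 (K : ℤ)) ×ˢ ({false} : Finset Bool))

lemma mem_rectEdges {W K : ℕ} {e : Pt × Bool} :
    e ∈ rectEdges W K ↔ (1 ≤ e.1.2 ∧ e.1.2 ≤ K ∧ e.1.1 ≤ W) ∧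
      ((e.2 = true ∧ 0 ≤ e.1.1) ∨ (e.2 = false ∧ 1 ≤ e.1.1)) := by
  obtain ⟨⟨x, y⟩, d⟩ := e
  cases d <;> simp [rectEdges, Finset.mem_union, Finset.mem_product, Finset.mem_Icc] <;> omega

/-- magnetisation at the site `(x,1)` of the bottom row of the rectangle; free boundary condition
below, plus boundary condition on the three other sides -/
def mag (β : ℝ) (W K : ℕ) (x : ℤ) : ℝ :=
  avL β (rect W K) (fun _ => true) (rectEdges W K) (fun σ => sp (σ (x, 1)))

/-! ### specifications and Gibbs measures on the line -/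

/-- `γ` is a specification on `{-1,+1}^ℤ` -/
structure IsSpec (γ : Finset ℤ → ProbabilityTheory.Kernel Om Om) : Prop where
  /-- the kernels are probability kernels -/
  prob : ∀ Λ, ProbabilityTheory.IsMarkovKernel (γ Λ)
  /-- `γ Λ` depends on the boundary condition outside `Λ` only -/
  outside : ∀ Λ (η η' : Om), (∀ i, i ∉ Λ → η i = η' i) → γ Λ η = γ Λ η'
  /-- `γ Λ` is proper: it does not change the spins outside `Λ` -/
  proper : ∀ Λ (η : Om), γ Λ η {ω | ∀ i, i ∉ Λ → ω i = η i} = 1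
  /-- consistency `γ_Δ γ_Λ = γ_Δ` for `Λ ⊆ Δ` -/
  consistent : ∀ Λ Δ, Λ ⊆ Δ → ∀ η : Om, (γ Δ η).bind (γ Λ) = γ Δ η

/-- `ν` is a Gibbs measure: consistent with a uniformly non-null quasilocal specification -/
def IsGibbs (ν : Measure Om) : Prop :=
  ∃ γ : Finset ℤ → ProbabilityTheory.Kernel Om Om, IsSpec γ ∧
    -- uniformly non-null
    (∀ Λ, ∃ c : ℝ, 0 < c ∧ ∀ η ζ : Om, c ≤ (γ Λ η).real {ω | ∀ i ∈ Λ, ω i = ζ i}) ∧
    -- quasilocal: every kernel maps continuous functions to continuous functions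
    (∀ Λ, ∀ f : C(Om, ℝ), Continuous fun η : Om => ∫ ω, f ω ∂(γ Λ η)) ∧
    -- ν is consistent with γ
    (∀ Λ, ν.bind (γ Λ) = ν)

end Pool.Agent.W854.IG
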