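import Pool.Agent.W854.IG.Base

/-!
# Project IG: assembly of the key estimate
-/

open Finset MeasureTheory Filter Topology

noncomputable section

namespace Pool.Agent.W854.IG

lemma wt_pos (β : ℝ) (n : ℕ) (ξ : Om) : 0 < wt β n ξ := Zg_one_pos _ _ _ _ _ _

lemma bc_update {n : ℕ} {i : ℤ} (hi : (i, 0) ∈ line n) (s : Bool) (ξ : Om) (t : Bool) (p : Pt) :
    bc t n (Function.update ξ i s) p = Function.update (bc t n ξ) (i, 0) s p := by
  by_cases hp : p = (i, 0)
  · subst hp
    simp [bc, hi]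
  · rw [Function.update_of_ne hp]
    unfold bc
    by_cases hl : p ∈ line n
    · simp only [hl, if_true]
      have : p.1 ≠ i := by
        intro h
        apply hp
        rw [mem_line] at hl
        exact Prod.ext h hl.2
      rw [Function.update_of_ne this]
    · simp [hl]

lemma mem_line_iff {n : ℕ} {i : ℤ} (h1 : -(n : ℤ) ≤ i) (h2 : i ≤ n) : ((i, 0) : Pt) ∈ line n := by
  rw [mem_line]; exact ⟨⟨h1, h2⟩, rfl⟩

lemma line_sub_box (n : ℕ) : line n ⊆ box n := by
  intro p hp
  rw [mem_line] at hp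
  rw [mem_box]
  exact ⟨hp.1, by omega⟩

/-- the conditional probability is an expectation -/
lemma pr_eq {β : ℝ} {n : ℕ} {i : ℤ} (h1 : -(n : ℤ) ≤ i) (h2 : i ≤ n) (ξ : Om) :
    pr β n i ξ = (1 + avL β (insert (i, 0) (box n \ line n)) (bc true n ξ) (edges n)
      (fun σ => sp (σ (i, 0)))) / 2 := by
  have hl := mem_line_iff h1 h2
  have hnot : ((i, 0) : Pt) ∉ box n \ line n := by
    rw [Finset.mem_sdiff]; exact fun h => h.2 hl
  have hw : ∀ s : Bool, wt β n (Function.update ξ i s) =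
      Zg (box n \ line n) (Function.update (bc true n ξ) (i, 0) s) (edges n) Prod.fst nb
        (fun _ => β) (fun _ => 1) := by
    intro s
    unfold wt ZL
    exact Zg_congr_bc (fun p _ => bc_update hl s ξ true p) _ _ _ _ _
  set A := wt β n (Function.update ξ i true) with hA
  set B := wt β n (Function.update ξ i false) with hB
  have hApos : 0 < A := wt_pos _ _ _
  have hBpos : 0 < B := wt_pos _ _ _
  have e1 : Zg (insert (i, 0) (box n \ line n)) (bc true n ξ) (edges n) Prod.fst nb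
      (fun _ => β) (fun _ => 1) = A + B := by
    rw [Zg_insert hnot, hA, hB, hw, hw]
  have e2 : Zg (insert (i, 0) (box n \ line n)) (bc true n ξ) (edges n) Prod.fst nb
      (fun _ => β) (fun σ => sp (σ (i, 0))) = A - B := by
    rw [Zg_insert hnot, hA, hB, hw, hw]
    have k1 : Zg (box n \ line n) (Function.update (bc true n ξ) (i, 0) true) (edges n) Prod.fst nb
        (fun _ => β) (fun σ => sp (σ (i, 0))) =
        Zg (box n \ line n) (Function.update (bc true n ξ) (i, 0) true) (edges n) Prod.fst nb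
        (fun _ => β) (fun _ => 1) := by
      apply Zg_congr_fun
      intro σ hσ
      rw [mem_cf] at hσ
      rw [hσ _ hnot]; simp
    have k2 : Zg (box n \ line n) (Function.update (bc true n ξ) (i, 0) false) (edges n) Prod.fst nb
        (fun _ => β) (fun σ => sp (σ (i, 0))) =
        Zg (box n \ line n) (Function.update (bc true n ξ) (i, 0) false) (edges n) Prod.fst nb
        (fun _ => β) (fun _ => (-1 : ℝ) * 1) := by
      apply Zg_congr_fun
      intro σ hσ
      rw [mem_cf] at hσ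
      rw [hσ _ hnot]; simp
    rw [k1, k2, Zg_const_mul]
    ring
  unfold avL av
  rw [e1, e2]
  unfold pr
  rw [← hA, ← hB]
  have : A + B ≠ 0 := by positivity
  field_simp
  ring

/-- the maximal influence -/
def infl (β : ℝ) (n : ℕ) (i : ℤ) : ℝ :=
  avL β (insert ((i, 0) : Pt) (box n \ line n)) (fun _ => true)
    ((edges n).filter (fun e => e.1 ∉ (line n).erase (i, 0) ∧ nb e ∉ (line n).erase (i, 0)))
    (fun σ => sp (σ (i, 0)))

lemma pr_cauchy (hS : S_SAND) (hP : S_PIN) {β : ℝ} (hβ : 0 ≤ β) {n m : ℕ} (hnm : n ≤ m) {i : ℤ}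
    (h1 : -(n : ℤ) ≤ i) (h2 : i ≤ n) (ξ : Om) :
    |pr β m i ξ - pr β n i ξ| ≤ infl β n i := by
  have hnm' : (n : ℤ) ≤ m := by exact_mod_cast hnm
  have hl := mem_line_iff h1 h2
  rw [pr_eq h1 h2, pr_eq (by omega) (by omega)]
  set Λ : Finset Pt := insert ((i, 0) : Pt) (box n \ line n) with hΛ
  set Λ' : Finset Pt := insert ((i, 0) : Pt) (box m \ line m) with hΛ'
  have mΛ : ∀ p : Pt, p ∈ Λ ↔ p = (i, 0) ∨ (p ∈ box n ∧ p ∉ line n) := by
    intro p; rw [hΛ, Finset.mem_insert, Finset.mem_sdiff]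
  have mΛ' : ∀ p : Pt, p ∈ Λ' ↔ p = (i, 0) ∨ (p ∈ box m ∧ p ∉ line m) := by
    intro p; rw [hΛ', Finset.mem_insert, Finset.mem_sdiff]
  have hbox : ∀ p : Pt, p ∈ box n → p ∉ line n → p ∉ line m := by
    intro p hb hn hm
    rw [mem_line] at hn hm
    rw [mem_box] at hb
    exact hn ⟨hb.1, hm.2⟩
  have hline : ∀ p : Pt, p ∈ line n → p ∈ line m := by
    intro p hp
    rw [mem_line] at hp ⊢
    omega
  have hsub : Λ ⊆ Λ' := by
    intro p hp
    rw [mΛ] at hp
    rw [mΛ']
    rcases hp with hp | ⟨hp, hp'⟩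
    · exact Or.inl hp
    · refine Or.inr ⟨?_, hbox p hp hp'⟩
      rw [mem_box] at hp ⊢
      omega
  have hout : ∀ p : Pt, p ∉ Λ → p ∈ Λ' → p ∉ line n := by
    intro p hp hp' hl'
    rw [mΛ] at hp
    rw [mΛ'] at hp'
    push Not at hp
    rcases hp' with h | ⟨_, h⟩
    · exact hp.1 h
    · exact h (hline p hl')
  have hJ : ∀ e ∈ edges m, 0 ≤ (fun _ : Pt × Bool => β) e := fun _ _ => hβ
  have hf : Monotone (fun σ : Pt → Bool => sp (σ (i, 0))) := sp_comp_mono _
  have up := (hS Pt (Pt × Bool) (edges m) Prod.fst nb (fun _ => β) hJ Λ Λ' (bc true n ξ)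
    (bc true m ξ) hsub _ hf).1
    (by
      intro p hp hp'
      simp [bc, hout p hp hp'])
    (by
      intro p hp
      unfold bc
      by_cases hl' : p ∈ line n
      · simp [hl', hline p hl']
      · simp only [hl', if_false]
        exact Bool.le_true _)
  have low := (hS Pt (Pt × Bool) (edges m) Prod.fst nb (fun _ => β) hJ Λ Λ' (bc false n ξ)
    (bc true m ξ) hsub _ hf).2
    (by
      intro p hp hp'
      simp [bc, hout p hp hp'])
    (by
      intro p hp
      unfold bc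
      by_cases hl' : p ∈ line n
      · simp [hl', hline p hl']
      · simp only [hl', if_false]
        exact Bool.false_le _)
  have hedge : ∀ (s : Bool), av Λ (bc s n ξ) (edges m) Prod.fst nb (fun _ => β)
      (fun σ : Pt → Bool => sp (σ (i, 0))) = av Λ (bc s n ξ) (edges n) Prod.fst nb (fun _ => β)
      (fun σ : Pt → Bool => sp (σ (i, 0))) := by
    intro s
    apply av_edges
    · intro e he
      rw [mem_edges] at he ⊢
      rcases he with he | he
      · left
        rw [mem_box] at he ⊢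
        omega
      · right
        rw [mem_box] at he ⊢
        omega
    · intro e he he'
      rw [mem_edges] at he'
      push Not at he'
      have hb : ∀ p : Pt, p ∉ box n → p ∉ Λ := by
        intro p hp hp'
        rw [mΛ] at hp'
        rcases hp' with h | h
        · subst h
          exact hp (line_sub_box n hl)
        · exact hp h.1
      exact ⟨hb _ he'.1, hb _ he'.2⟩
  rw [hedge] at up low
  -- the pinned model
  set L : Finset Pt := (line n).erase (i, 0) with hL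
  have hpin : ∀ (s : Bool), av Λ (bc s n ξ) (edges n) Prod.fst nb (fun _ => β)
      (fun σ : Pt → Bool => sp (σ (i, 0))) =
      av Λ (pin L (fun p => ξ p.1) s) (edges n) Prod.fst nb (fun _ => β)
      (fun σ : Pt → Bool => sp (σ (i, 0))) := by
    intro s
    apply av_congr_bc
    intro p hp
    rw [mΛ] at hp
    push Not at hp
    unfold bc pin
    by_cases hl' : p ∈ line n
    · have : p ∈ L := by rw [hL, Finset.mem_erase]; exact ⟨hp.1, hl'⟩
      simp [hl', this]
    · have : p ∉ L := by rw [hL, Finset.mem_erase]; exact fun h => hl' h.2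
      simp [hl', this]
  have hdis : Disjoint Λ L := by
    rw [Finset.disjoint_left]
    intro p hp hp'
    rw [hL, Finset.mem_erase] at hp'
    rw [mΛ] at hp
    rcases hp with h | h
    · exact hp'.1 h
    · exact h.2 hp'.2
  have pinned := hP Pt (Pt × Bool) Λ L (edges n) Prod.fst nb (fun _ => β) (fun p => ξ p.1)
    (i, 0) hdis (by rw [mΛ]; exact Or.inl rfl) (fun _ _ => hβ)
  rw [← hpin true, ← hpin false] at pinned
  unfold infl avL
  rw [← hΛ, ← hL]
  rw [abs_le]
  unfold avL at *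
  constructor
  · linarith
  · linarith

/-- magnetisation on the bottom of rectangles -/
def S_RECT : Prop :=
  ∀ W K : ℕ, 1 ≤ K →
    (∑ x ∈ Finset.Icc 1 W, (mag βc W K x) ^ 2) * (1 + 2 * (√2 - 1) * K) ≤ W + K * (K + 1)

theorem rect_of (h1 : S_HARM) (h2 : S_QREL) : S_RECT := by
  intro W K hK
  obtain ⟨Q, hQ⟩ := h2 W K hK
  exact h1 W K Q _ hK hQ

lemma βc_nonneg : 0 ≤ βc := by
  unfold βc
  have : 0 ≤ Real.log (1 + √2) := Real.log_nonneg (by have := Real.sqrt_nonneg 2; linarith)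
  linarith

theorem key (hS : S_SAND) (hP : S_PIN) (hLf : S_LEAF) (hV : S_VOL) (hR : S_RECT) : S_KEY := by
  -- the influence tends to zero
  have main : ∀ i : ℤ, ∀ ε : ℝ, 0 < ε → ∃ N : ℕ, ∀ n, N ≤ n →
      (-(n : ℤ) ≤ i ∧ i ≤ n) ∧ infl βc n i ≤ ε := by
    intro i ε hε
    set C : ℝ := Real.sinh βc * Real.cosh βc with hC
    have hC0 : 0 ≤ C := mul_nonneg (Real.sinh_nonneg_iff.2 βc_nonneg) (Real.cosh_pos _).le
    have hq : 0 < 2 * (√2 - 1) := by
      have : 1 < √2 := by
        rw [show (1:ℝ) = √1 by simp]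
        exact Real.sqrt_lt_sqrt (by norm_num) (by norm_num)
      linarith
    -- choose K
    obtain ⟨K, hK⟩ : ∃ K : ℕ, 8 * C ^ 2 / ε ^ 2 / (2 * (√2 - 1)) ≤ K := exists_nat_ge _
    set K1 := K + 1 with hK1
    have hK1' : 8 * C ^ 2 / ε ^ 2 ≤ 2 * (√2 - 1) * K1 := by
      rw [div_le_iff₀ hq] at hK
      have : (K : ℝ) ≤ K1 := by rw [hK1]; push_cast; linarith
      nlinarith
    set W := K1 * (K1 + 1) with hW
    have hWpos : 0 < W := by positivity
    refine ⟨i.natAbs + W + K1 + 1, ?_⟩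
    intro n hn
    have hn1 : (i.natAbs : ℤ) + W + K1 + 1 ≤ n := by exact_mod_cast hn
    have hi := abs_le.1 (le_of_eq (Int.abs_eq_natAbs i))
    refine ⟨⟨by omega, by omega⟩, ?_⟩
    have leaf := hLf βc n i βc_nonneg (by omega) (by omega)
    have hle : ∀ x ∈ Finset.Icc 1 W, infl βc n i ≤ 2 * C * mag βc W K1 (x : ℕ) := by
      intro x hx
      rw [Finset.mem_Icc] at hx
      have := hV βc n W K1 i x βc_nonneg (by exact_mod_cast hx.1) (by exact_mod_cast hx.2)
        (by omega) (by omega) (by omega) (by omega)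
      unfold infl
      calc _ ≤ C * (magHalf βc n (i, 1) + magHalf βc n (i, -1)) := leaf
        _ ≤ C * (mag βc W K1 (x : ℕ) + mag βc W K1 (x : ℕ)) :=
            mul_le_mul_of_nonneg_left (add_le_add this.1 this.2) hC0
        _ = _ := by ring
    by_contra hcon
    push Not at hcon
    have hr := hR W K1 (by omega)
    -- every term is at least ε²/(4C²)
    have hlow : ∀ x ∈ Finset.Icc 1 W, ε ^ 2 ≤ 4 * C ^ 2 * (mag βc W K1 (x : ℕ)) ^ 2 := by
      intro x hx
      have h3 := lt_of_lt_of_le hcon (hle x hx)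
      have : 4 * C ^ 2 * (mag βc W K1 (x : ℕ)) ^ 2 = (2 * C * mag βc W K1 (x : ℕ)) ^ 2 := by ring
      rw [this]
      exact pow_le_pow_left₀ hε.le h3.le 2
    have hsum : (W : ℝ) * ε ^ 2 ≤ 4 * C ^ 2 * ∑ x ∈ Finset.Icc 1 W, (mag βc W K1 (x : ℕ)) ^ 2 := by
      rw [Finset.mul_sum]
      calc (W : ℝ) * ε ^ 2 = ∑ x ∈ Finset.Icc 1 W, ε ^ 2 := by
            rw [Finset.sum_const, Nat.card_Icc, nsmul_eq_mul]; simp
        _ ≤ _ := Finset.sum_le_sum hlow
    have hWr : (0 : ℝ) < W := by exact_mod_cast hWpos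
    have hWe : (W : ℝ) = K1 * (K1 + 1) := by rw [hW]; push_cast; ring
    rw [← hWe] at hr
    have hD : 0 < 1 + 2 * (√2 - 1) * (K1 : ℝ) := by positivity
    set S := ∑ x ∈ Finset.Icc 1 W, (mag βc W K1 (x : ℕ)) ^ 2 with hSdef
    have h4 : (W : ℝ) * ε ^ 2 * (1 + 2 * (√2 - 1) * (K1 : ℝ)) ≤ 4 * C ^ 2 * (W + W) := by
      calc (W : ℝ) * ε ^ 2 * (1 + 2 * (√2 - 1) * (K1 : ℝ))
          ≤ (4 * C ^ 2 * S) * (1 + 2 * (√2 - 1) * (K1 : ℝ)) :=
            mul_le_mul_of_nonneg_right hsum hD.le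
        _ = 4 * C ^ 2 * (S * (1 + 2 * (√2 - 1) * (K1 : ℝ))) := by ring
        _ ≤ 4 * C ^ 2 * (W + W) := mul_le_mul_of_nonneg_left hr (by positivity)
    have h5 : ε ^ 2 * (1 + 2 * (√2 - 1) * (K1 : ℝ)) ≤ 8 * C ^ 2 := by
      have : (W : ℝ) * (ε ^ 2 * (1 + 2 * (√2 - 1) * (K1 : ℝ))) ≤ W * (8 * C ^ 2) := by
        linarith
      exact le_of_mul_le_mul_left this hWr
    have h6 : 8 * C ^ 2 ≤ ε ^ 2 * (2 * (√2 - 1) * K1) := by
      have := (div_le_iff₀ (by positivity : (0:ℝ) < ε ^ 2)).1 hK1'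
      linarith
    have : 0 < ε ^ 2 := by positivity
    nlinarith
  intro i ε hε
  obtain ⟨N, hN⟩ := main i ε hε
  refine ⟨N, ?_⟩
  intro n m hn hm ξ
  rcases le_total n m with hnm | hnm
  · obtain ⟨⟨a1, a2⟩, a3⟩ := hN n hn
    exact (pr_cauchy hS hP βc_nonneg hnm a1 a2 ξ).trans a3
  · obtain ⟨⟨a1, a2⟩, a3⟩ := hN m hm
    rw [abs_sub_comm]
    exact (pr_cauchy hS hP βc_nonneg hnm a1 a2 ξ).trans a3

end Pool.Agent.W854.IG
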