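import Pool.Agent.W854.IG.Defs

/-!
# Project IG (MP_6ac95e_pr): statements of the parts
-/

open Finset MeasureTheory Filter Topology

noncomputable section

namespace Pool.Agent.W854.IG

/-- auxiliary function of the real-variable inequality -/
def mfun (a c x : ℝ) : ℝ :=
  (a * √((x ^ 2 - c ^ 2) * (x ^ 2 * c ^ 2 - 1)) + x * √((a ^ 2 - c ^ 2) * (a ^ 2 * c ^ 2 - 1))
    + c * (a + x)) / (c * x * (a + x))

/-- IG-MONO -/
def S_MONO : Prop :=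
  ∀ a c x y : ℝ, 1 ≤ c → c ≤ x → x ≤ y → y < a → mfun a c x ≤ mfun a c y

/-- IG-RLN: the real-variable inequality, normalised -/
def S_RLN : Prop :=
  ∀ a c s X n m w ζ : ℝ, 1 ≤ c → c ≤ a → c ≤ s → a ≤ X → 0 < n → 0 < m → a * s * n ≤ 1 →
    1 ≤ w → 0 < ζ →
    (∀ t : ℝ, 0 < t → (t * c + s * a) * (a * c * t * s + 1) ≤
      (X * (1 + n) / (1 + m)) ^ 2 * ((t * a + s * c) * (t * s + a * c))) →
    (ζ * c + w * s * a) * (a * c * ζ * (w * s) + 1) ≤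
      (X * (w + n) / (w + m)) ^ 2 * ((ζ * a + w * s * c) * (ζ * (w * s) + a * c))

/-- IG-RL: the real-variable inequality -/
def S_RL : Prop :=
  ∀ p1 p2 p3 p4 q1 q2 q3 q4 a0 ai ax ay w z : ℝ,
    0 < p1 → 0 < p2 → 0 < p3 → 0 < p4 → 0 < q1 → 0 < q2 → 0 < q3 → 0 < q4 →
    0 < a0 → 0 < ai → 0 < ax → 0 < ay → 1 ≤ w → 0 < z →
    (∀ t : ℝ, 0 < t → (t * p1 + q1) * (t * p2 + q2) * (ax + ay) ^ 2
      ≤ (a0 + ai) ^ 2 * ((t * p3 + q3) * (t * p4 + q4))) →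
    p1 * q2 * ax ^ 2 ≤ a0 ^ 2 * (q3 * p4) →
    p1 * q2 * ai ^ 2 ≤ a0 ^ 2 * (q1 * p2) →
    q1 * p4 ≤ p1 * q4 → q3 * p2 ≤ p3 * q2 → q1 * p3 ≤ p1 * q3 → q4 * p2 ≤ p4 * q2 →
    (w * z * p1 + q1) * (z * p2 + w * q2) * (ax * w + ay) ^ 2
      ≤ (a0 * w + ai) ^ 2 * ((z * p3 + w * q3) * (w * z * p4 + q4))

/-- IG-FKG3: conditional positive correlation of two spins -/
def S_FKG3 : Prop :=
  ∀ (V ι : Type) [Fintype V] [DecidableEq V] [Fintype ι] (a b : ι → V) (J : ι → ℝ) (h : V → ℝ)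
    (x y z : V) (t : Bool), (∀ e, 0 ≤ J e) →
    Zf a b J h (ind3 x y z true t false) * Zf a b J h (ind3 x y z false t true) ≤
      Zf a b J h (ind3 x y z true t true) * Zf a b J h (ind3 x y z false t false)

/-- IG-FKG2: positive correlation of two spins -/
def S_FKG2 : Prop :=
  ∀ (V ι : Type) [Fintype V] [DecidableEq V] [Fintype ι] (a b : ι → V) (J : ι → ℝ) (h : V → ℝ)
    (x y : V), (∀ e, 0 ≤ J e) →
    Zf a b J h (ind2 x y true false) * Zf a b J h (ind2 x y false true) ≤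
      Zf a b J h (ind2 x y true true) * Zf a b J h (ind2 x y false false)

/-- IG-DSS: the Ding-Song-Sun inequality -/
def S_DSS : Prop :=
  ∀ (V ι : Type) [Fintype V] [DecidableEq V] [Fintype ι] (a b : ι → V) (J : ι → ℝ) (h : V → ℝ)
    (x y : V), x ≠ y → (∀ e, 0 ≤ J e) →
    Zf a b J h (ind2 x y true true) * Zf a b J h (ind2 x y false false) *
        Zf a b J 0 (ind2 x y true false) ^ 2 ≤
      Zf a b J h (ind2 x y true false) * Zf a b J h (ind2 x y false true) *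
        Zf a b J 0 (ind2 x y true true) ^ 2

/-- IG-PIN: influence of a boundary spin is largest when the pinned spins are removed -/
def S_PIN : Prop :=
  ∀ (P ι : Type) [DecidableEq P] (Λ L : Finset P) (E : Finset ι) (a b : ι → P) (J : ι → ℝ)
    (τ : P → Bool) (x : P), Disjoint Λ L → x ∈ Λ → (∀ e ∈ E, 0 ≤ J e) →
    av Λ (pin L τ true) E a b J (fun σ => sp (σ x)) -
        av Λ (pin L τ false) E a b J (fun σ => sp (σ x)) ≤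
      2 * av Λ (fun _ => true) (E.filter (fun e => a e ∉ L ∧ b e ∉ L)) a b J
        (fun σ => sp (σ x))

/-- IG-SAND: FKG comparison of boundary conditions and volumes -/
def S_SAND : Prop :=
  ∀ (P ι : Type) [DecidableEq P] (E : Finset ι) (a b : ι → P) (J : ι → ℝ),
    (∀ e ∈ E, 0 ≤ J e) → ∀ (Λ Λ' : Finset P) (τ τ' : P → Bool), Λ ⊆ Λ' →
    ∀ f : (P → Bool) → ℝ, Monotone f →
    ((∀ p, p ∉ Λ → p ∈ Λ' → τ p = true) → (∀ p, p ∉ Λ' → τ' p ≤ τ p) →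
      av Λ' τ' E a b J f ≤ av Λ τ E a b J f) ∧
    ((∀ p, p ∉ Λ → p ∈ Λ' → τ p = false) → (∀ p, p ∉ Λ' → τ p ≤ τ' p) →
      av Λ τ E a b J f ≤ av Λ' τ' E a b J f)

/-- IG-LEAF: removing the line spin `(i,0)` -/
def S_LEAF : Prop :=
  ∀ (β : ℝ) (n : ℕ) (i : ℤ), 0 ≤ β → -(n : ℤ) < i → i < n →
    avL β (insert ((i, 0) : Pt) (box n \ line n)) (fun _ => true)
        ((edges n).filter (fun e => e.1 ∉ (line n).erase (i, 0) ∧ nb e ∉ (line n).erase (i, 0)))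
        (fun σ => sp (σ (i, 0))) ≤
      Real.sinh β * Real.cosh β * (magHalf β n (i, 1) + magHalf β n (i, -1))

/-- IG-VOL: comparison of the half box with (shifted, reflected) rectangles -/
def S_VOL : Prop :=
  ∀ (β : ℝ) (n W K : ℕ) (i x : ℤ), 0 ≤ β → 1 ≤ x → x ≤ W → -(n : ℤ) ≤ i - x + 1 →
    i - x + W ≤ n → 1 ≤ K → K ≤ n →
    magHalf β n (i, 1) ≤ mag β W K x ∧ magHalf β n (i, -1) ≤ mag β W K x

/-- the relations between the Kadanoff-Ceva correlators at `β = βc`; `Q a b x y` is the correlator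
of the spin at `(x,y)` and the disorder at the face `[a,a+1] × [b,b+1]` -/
structure QSys (W K : ℕ) (Q : ℕ → ℕ → ℕ → ℕ → ℝ) (m : ℕ → ℝ) : Prop where
  row1 : ∀ a x, a ≤ W → x ≤ W + 1 → Q a 0 x 1 = m x
  m0 : m 0 = 1
  mW : m (W + 1) = 1
  h1 : ∀ a b, a ≤ W → b < K → Q a (b + 1) a (b + 1) = √2 * Q a b a (b + 1) - Q a b (a + 1) (b + 1)
  h2 : ∀ a b, a ≤ W → b < K →
    Q a (b + 1) (a + 1) (b + 1) = √2 * Q a b (a + 1) (b + 1) - Q a b a (b + 1)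
  v1 : ∀ a b, a < W → 1 ≤ b → b ≤ K →
    - Q (a + 1) b (a + 1) b = √2 * Q a b (a + 1) b - Q a b (a + 1) (b + 1)
  v2 : ∀ a b, a < W → 1 ≤ b → b ≤ K →
    Q (a + 1) b (a + 1) (b + 1) = √2 * Q a b (a + 1) (b + 1) - Q a b (a + 1) b
  left : ∀ a b y, a ≤ W → b ≤ K → 1 ≤ y → y ≤ K + 1 → Q a b 0 y = Q a b 0 (K + 1)
  right : ∀ a b y, a ≤ W → b ≤ K → 1 ≤ y → y ≤ K + 1 → Q a b (W + 1) y = Q a b 0 (K + 1)
  top : ∀ a b x, a ≤ W → b ≤ K → x ≤ W + 1 → Q a b x (K + 1) = Q a b 0 (K + 1)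
  g0 : ∀ a b, a ≤ W → b ≤ K → 0 ≤ Q a b 0 (K + 1)
  g1 : ∀ a b, a ≤ W → b ≤ K → Q a b 0 (K + 1) ≤ 1

/-- IG-HARM: the discrete subharmonicity argument -/
def S_HARM : Prop :=
  ∀ (W K : ℕ) (Q : ℕ → ℕ → ℕ → ℕ → ℝ) (m : ℕ → ℝ), 1 ≤ K → QSys W K Q m →
    (∑ x ∈ Finset.Icc 1 W, m x ^ 2) * (1 + 2 * (√2 - 1) * K) ≤ W + K * (K + 1)

/-- IG-QREL: the Kadanoff-Ceva correlators satisfy the relations -/
def S_QREL : Prop :=
  ∀ W K : ℕ, 1 ≤ K → ∃ Q : ℕ → ℕ → ℕ → ℕ → ℝ, QSys W K Q (fun x => mag βc W K x)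

/-- IG-LINK: the law of the line in the box -/
def S_LINK : Prop :=
  ∀ (β : ℝ) (n : ℕ) (f : Om → ℝ),
    ∫ σ, f (fun i => σ (i, 0)) ∂(plusMeasure β n) =
      (∑ ξ ∈ cf (Finset.Icc (-(n : ℤ)) n) (fun _ => true), f ξ * wt β n ξ) /
        ∑ ξ ∈ cf (Finset.Icc (-(n : ℤ)) n) (fun _ => true), wt β n ξ

/-- IG-BD: finite energy -/
def S_BD : Prop :=
  ∀ (β : ℝ) (n : ℕ) (i : ℤ) (ξ : Om) (s : Bool), 0 ≤ β →
    wt β n (Function.update ξ i s) ≤ Real.exp (8 * β) * wt β n ξ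

/-- IG-EXIST: the plus phase exists -/
def S_EXIST : Prop := ∀ β : ℝ, 0 ≤ β → ∃ μ : Measure (Pt → Bool), IsPlusPhase β μ

/-- IG-SOFTA: uniform convergence of the finite-volume conditional probabilities -/
def S_SOFTA : Prop :=
  ∀ w : ℕ → Om → ℝ, (∀ n ξ, 0 < w n ξ) →
    (∀ i : ℤ, ∃ C : ℝ, 0 < C ∧ ∀ n ξ s, w n (Function.update ξ i s) ≤ C * w n ξ) →
    (∀ i : ℤ, ∀ ε : ℝ, 0 < ε → ∃ N : ℕ, ∀ n m, N ≤ n → N ≤ m → ∀ ξ,
      |w m (Function.update ξ i true) /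
          (w m (Function.update ξ i true) + w m (Function.update ξ i false)) -
        w n (Function.update ξ i true) /
          (w n (Function.update ξ i true) + w n (Function.update ξ i false))| ≤ ε) →
    ∃ g : (Λ : Finset ℤ) → (Λ → Bool) → Om → ℝ, ∀ (Λ : Finset ℤ) (ζ : Λ → Bool),
      (∀ ε : ℝ, 0 < ε → ∃ N : ℕ, ∀ n, N ≤ n → ∀ η,
        |w n (ext Λ η ζ) / (∑ ζ' : Λ → Bool, w n (ext Λ η ζ')) - g Λ ζ η| ≤ ε) ∧
      ∃ c : ℝ, 0 < c ∧ ∀ η, c ≤ g Λ ζ η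

/-- IG-SOFTB: from uniformly convergent conditional probabilities to a Gibbs measure -/
def S_SOFTB : Prop :=
  ∀ (w : ℕ → Om → ℝ) (g : (Λ : Finset ℤ) → (Λ → Bool) → Om → ℝ) (ν : Measure Om),
    IsProbabilityMeasure ν → (∀ n ξ, 0 < w n ξ) →
    (∀ (n : ℕ) (ξ ξ' : Om), (∀ i ∈ Finset.Icc (-(n : ℤ)) n, ξ i = ξ' i) → w n ξ = w n ξ') →
    (∀ (Λ : Finset ℤ) (ζ : Λ → Bool),
      (∀ ε : ℝ, 0 < ε → ∃ N : ℕ, ∀ n, N ≤ n → ∀ η,
        |w n (ext Λ η ζ) / (∑ ζ' : Λ → Bool, w n (ext Λ η ζ')) - g Λ ζ η| ≤ ε) ∧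
      ∃ c : ℝ, 0 < c ∧ ∀ η, c ≤ g Λ ζ η) →
    (∀ f : C(Om, ℝ), Tendsto (fun n : ℕ =>
      (∑ ξ ∈ cf (Finset.Icc (-(n : ℤ)) n) (fun _ => true), f ξ * w n ξ) /
        ∑ ξ ∈ cf (Finset.Icc (-(n : ℤ)) n) (fun _ => true), w n ξ) atTop (𝓝 (∫ ξ, f ξ ∂ν))) →
    IsGibbs ν

/-- IG-KEY: uniform convergence of the conditional probability of one line spin -/
def S_KEY : Prop :=
  ∀ i : ℤ, ∀ ε : ℝ, 0 < ε → ∃ N : ℕ, ∀ n m, N ≤ n → N ≤ m → ∀ ξ : Om,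
    |pr βc m i ξ - pr βc n i ξ| ≤ ε

end Pool.Agent.W854.IG
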